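import Mathlib

/-!
# Weak rational ergodicity, rational weak mixing, power weak mixing
-/

set_option autoImplicit false

namespace Pool.Agent.Lib.MP_0c3574_an

open Set Filter Topology MeasureTheory

variable {X : Type} [MeasurableSpace X]

/-- The power `T^k`, for an integer `k`, of an invertible bimeasurable map `T`. -/
def iter (T : X ≃ᵐ X) (k : ℤ) : Equiv.Perm X := (T.toEquiv : Equiv.Perm X) ^ k

/-- `u_i(F) = μ(T^i F ∩ F) / μ(F)^2`. -/
noncomputable def uSeq (μ : Measure X) (T : X ≃ᵐ X) (F : Set X) (i : ℕ) : ℝ :=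
  μ.real (iter T i '' F ∩ F) / μ.real F ^ 2

/-- `a_n(F) = ∑_{i < n} u_i(F)`. -/
noncomputable def aSeq (μ : Measure X) (T : X ≃ᵐ X) (F : Set X) (n : ℕ) : ℝ :=
  ∑ i ∈ Finset.range n, uSeq μ T F i

/-- Weak rational ergodicity: for some `F` with `0 < μ(F) < ∞`, for all measurable `A, B ⊆ F`,
`(1/a_n(F)) ∑_{i<n} μ(T^i A ∩ B) → μ(A) μ(B)`. -/
def WeaklyRationallyErgodic (μ : Measure X) (T : X ≃ᵐ X) : Prop :=
  ∃ F : Set X, MeasurableSet F ∧ 0 < μ F ∧ μ F < ⊤ ∧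
    ∀ A B : Set X, MeasurableSet A → MeasurableSet B → A ⊆ F → B ⊆ F →
      Tendsto (fun n : ℕ => (1 / aSeq μ T F n) *
        ∑ i ∈ Finset.range n, μ.real (iter T i '' A ∩ B)) atTop (𝓝 (μ.real A * μ.real B))

/-- Rational weak mixing: for some `F` with `0 < μ(F) < ∞`, for all measurable `A, B ⊆ F`,
`(1/a_n(F)) ∑_{i<n} |μ(T^i A ∩ B) - μ(A) μ(B) u_i(F)| → 0`. -/
def RationallyWeaklyMixing (μ : Measure X) (T : X ≃ᵐ X) : Prop :=
  ∃ F : Set X, MeasurableSet F ∧ 0 < μ F ∧ μ F < ⊤ ∧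
    ∀ A B : Set X, MeasurableSet A → MeasurableSet B → A ⊆ F → B ⊆ F →
      Tendsto (fun n : ℕ => (1 / aSeq μ T F n) *
        ∑ i ∈ Finset.range n,
          |μ.real (iter T i '' A ∩ B) - μ.real A * μ.real B * uSeq μ T F i|) atTop (𝓝 0)

/-- Power weak mixing: for all `r ≥ 1` and all nonzero integers `k_1, …, k_r` the product
`T^{k_1} × ⋯ × T^{k_r}` is ergodic with respect to the product measure. -/
def PowerWeaklyMixing (μ : Measure X) [SigmaFinite μ] (T : X ≃ᵐ X) : Prop :=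
  ∀ r : ℕ, 1 ≤ r → ∀ k : Fin r → ℤ, (∀ j, k j ≠ 0) →
    Ergodic (fun (x : Fin r → X) (j : Fin r) => iter T (k j) (x j))
      (Measure.pi fun _ : Fin r => μ)

end Pool.Agent.Lib.MP_0c3574_an
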