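import Mathlib

/-!
# A limit of measures along an ultrafilter, dominated on a semiring by a measure
-/

set_option autoImplicit false

namespace Pool.Agent.Lib.MP_0c3574_an

open Set Filter Topology MeasureTheory
open scoped ENNReal

/-- The limit of an extended nonnegative sequence along an ultrafilter. -/
noncomputable def ulim (U : Ultrafilter ℕ) (f : ℕ → ℝ≥0∞) : ℝ≥0∞ := (U.map f).lim

theorem tendsto_ulim (U : Ultrafilter ℕ) (f : ℕ → ℝ≥0∞) : Tendsto f U (𝓝 (ulim U f)) :=
  (U.map f).le_nhds_lim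

theorem ulim_eq {U : Ultrafilter ℕ} {f : ℕ → ℝ≥0∞} {c : ℝ≥0∞} (h : Tendsto f U (𝓝 c)) :
    ulim U f = c :=
  tendsto_nhds_unique (tendsto_ulim U f) h

variable {Ω : Type} [mΩ : MeasurableSpace Ω]

theorem measure_sUnion_finset (m : Measure Ω) {I : Finset (Set Ω)}
    (hdis : (I : Set (Set Ω)).PairwiseDisjoint id) (hmeas : ∀ u ∈ I, MeasurableSet u) :
    m (⋃₀ (I : Set (Set Ω))) = ∑ u ∈ I, m u := by
  have h := measure_biUnion_finset (μ := m) (f := id) hdis hmeas
  rw [sUnion_eq_biUnion]
  simpa using h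

/-- A content dominated by a measure which is finite on the semiring is sigma-subadditive. -/
theorem isSigmaSubadditive_of_le {C : Set (Set Ω)} (hC : IsSetSemiring C)
    (hmeas : ∀ R ∈ C, MeasurableSet R) (m : Measure Ω) (hfin : ∀ R ∈ C, m R ≠ ∞)
    (ν : AddContent ℝ≥0∞ C) (hle : ∀ R ∈ C, ν R ≤ m R) : ν.IsSigmaSubadditive := by
  classical
  intro f hf hU
  set E : Set Ω := ⋃ i, f i with hE
  -- tails
  set D : ℕ → Set Ω := fun n => E \ ⋃ i ∈ Finset.range n, f i with hD
  have hDm : ∀ n, MeasurableSet (D n) := fun n =>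
    (hmeas E hU).diff (Finset.measurableSet_biUnion _ fun i _ => hmeas _ (hf i))
  have hDanti : Antitone D := by
    intro a b hab
    apply sdiff_subset_sdiff_right
    apply biUnion_subset_biUnion_left
    intro i hi
    simp only [Finset.coe_range, mem_Iio] at *
    omega
  have hDinter : ⋂ n, D n = ∅ := by
    rw [eq_empty_iff_forall_notMem]
    intro x hx
    rw [mem_iInter] at hx
    have hxE : x ∈ E := (hx 0).1
    rw [hE, mem_iUnion] at hxE
    obtain ⟨i, hi⟩ := hxE
    apply (hx (i + 1)).2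
    simp only [Finset.mem_range, mem_iUnion]
    exact ⟨i, Nat.lt_succ_self i, hi⟩
  have hDlim : Tendsto (fun n => m (D n)) atTop (𝓝 0) := by
    have h1 := tendsto_measure_iInter_atTop (μ := m) (s := D)
      (fun n => (hDm n).nullMeasurableSet) hDanti
      ⟨0, ne_top_of_le_ne_top (hfin E hU) (measure_mono sdiff_subset)⟩
    rw [hDinter, measure_empty] at h1
    exact h1
  have key : ∀ n : ℕ, ν E ≤ (∑' i, ν (f i)) + m (D n) := by
    intro n
    let I : Finset (Set Ω) := (Finset.range n).image f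
    have hI : (I : Set (Set Ω)) ⊆ C := by
      intro s hs
      simp only [I, Finset.coe_image, mem_image] at hs
      obtain ⟨i, -, rfl⟩ := hs
      exact hf i
    have hIU : ⋃₀ (I : Set (Set Ω)) = ⋃ i ∈ Finset.range n, f i := by
      simp [I, sUnion_image]
    let I' := hC.disjointOfDiffUnion hU hI
    have h1 : E \ ⋃₀ (I : Set (Set Ω)) = ⋃₀ (I' : Set (Set Ω)) :=
      hC.sdiff_sUnion_eq_sUnion_disjointOfDiffUnion hU hI
    have hI' : (I' : Set (Set Ω)) ⊆ C := hC.disjointOfDiffUnion_subset hU hI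
    have h2 : ν E ≤ ∑ u ∈ I ∪ I', ν u := by
      apply addContent_le_sum_of_subset_sUnion hC
      · rw [Finset.coe_union]
        exact union_subset hI hI'
      · exact hU
      · rw [Finset.coe_union, sUnion_union, ← h1]
        intro x hx
        by_cases hx' : x ∈ ⋃₀ (I : Set (Set Ω))
        · exact Or.inl hx'
        · exact Or.inr ⟨hx, hx'⟩
    have h3 : ∑ u ∈ I ∪ I', ν u ≤ ∑ u ∈ I, ν u + ∑ u ∈ I', ν u := by
      rw [← Finset.sum_union_inter]
      exact le_self_add
    have h4 : ∑ u ∈ I, ν u ≤ ∑' i, ν (f i) := by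
      calc ∑ u ∈ I, ν u ≤ ∑ i ∈ Finset.range n, ν (f i) := Finset.sum_image_le_of_nonneg (by simp)
        _ ≤ ∑' i, ν (f i) := ENNReal.sum_le_tsum _
    have h5 : ∑ u ∈ I', ν u ≤ m (D n) := by
      have h6 : D n = ⋃₀ (I' : Set (Set Ω)) := by rw [← h1, hIU]
      rw [h6, measure_sUnion_finset]
      · exact Finset.sum_le_sum fun u hu => hle u (hI' hu)
      · exact hC.pairwiseDisjoint_disjointOfDiffUnion hU hI
      · exact fun u hu => hmeas u (hI' hu)
    calc ν E ≤ ∑ u ∈ I ∪ I', ν u := h2
      _ ≤ ∑ u ∈ I, ν u + ∑ u ∈ I', ν u := h3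
      _ ≤ _ := add_le_add h4 h5
  have hlim : Tendsto (fun n => (∑' i, ν (f i)) + m (D n)) atTop (𝓝 ((∑' i, ν (f i)) + 0)) :=
    tendsto_const_nhds.add hDlim
  rw [add_zero] at hlim
  exact ge_of_tendsto' hlim key

/-- Ultralimits of measures, dominated on a generating semiring by a measure that is finite on the
semiring, are given on the semiring by a measure. -/
theorem exists_limit_measure {C : Set (Set Ω)} (hC : IsSetSemiring C)
    (hgen : mΩ = MeasurableSpace.generateFrom C)
    (m : Measure Ω) (hfin : ∀ R ∈ C, m R ≠ ∞) (N : ℕ → Measure Ω) (U : Ultrafilter ℕ)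
    (hle : ∀ R ∈ C, ulim U (fun n => N n R) ≤ m R) :
    ∃ ν : Measure Ω, ∀ R ∈ C, ν R = ulim U (fun n => N n R) := by
  have hmeas : ∀ R ∈ C, MeasurableSet R := fun R hR => by
    rw [hgen]; exact MeasurableSpace.measurableSet_generateFrom hR
  let c : AddContent ℝ≥0∞ C :=
    { toFun := fun R => ulim U (fun n => N n R)
      empty' := by
        apply ulim_eq
        simp
      sUnion' := by
        intro I hI hdis _
        apply ulim_eq
        have h1 : ∀ n, N n (⋃₀ (I : Set (Set Ω))) = ∑ u ∈ I, N n u := by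
          intro n
          exact measure_sUnion_finset (N n) hdis fun u hu => hmeas u (hI hu)
        simp_rw [h1]
        exact tendsto_finsetSum _ fun u _ => tendsto_ulim U _ }
  have hsub : c.IsSigmaSubadditive := isSigmaSubadditive_of_le hC hmeas m hfin c hle
  exact ⟨c.measure hC hgen.le hsub, fun R hR => AddContent.measure_eq c hC hgen hsub hR⟩

end Pool.Agent.Lib.MP_0c3574_an
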