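import Mathlib
import Pool.Agent.Lib.MP_0c3574_an.Defs
import Pool.Agent.Lib.MP_0c3574_an.Limit

/-!
# Weak rational ergodicity and ergodicity of the cartesian square imply rational weak mixing
-/

set_option autoImplicit false

namespace Pool.Agent.Lib.MP_0c3574_an

open Set Filter Topology MeasureTheory
open scoped ENNReal

/-! ### Invariant measures dominated by an ergodic measure -/

theorem eq_smul_of_invariant {Ω : Type} [MeasurableSpace Ω] (m : Measure Ω) [SigmaFinite m]
    (S : Ω ≃ᵐ Ω) (hS : Ergodic S m) (ν : Measure Ω) (hle : ν ≤ m) (hinv : ν.map S = ν) :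
    ∃ c : ℝ≥0∞, ν = c • m := by
  have hσ : SigmaFinite ν := Measure.sigmaFinite_of_le m hle
  have hac : ν ≪ m := Measure.absolutelyContinuous_of_le hle
  set k : Ω → ℝ≥0∞ := ν.rnDeriv m with hk
  have hkm : Measurable k := Measure.measurable_rnDeriv ν m
  have hkd : m.withDensity k = ν := Measure.withDensity_rnDeriv_eq ν m hac
  have hinvk : k ∘ S =ᵐ[m] k := by
    apply ae_eq_of_forall_setLIntegral_eq_of_sigmaFinite (hkm.comp S.measurable) hkm
    intro E hE _
    have hE' : MeasurableSet (S '' E) := S.measurableSet_image.mpr hE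
    have h1 : E = S ⁻¹' (S '' E) := (preimage_image_eq E S.injective).symm
    calc ∫⁻ x in E, (k ∘ S) x ∂m = ∫⁻ x in S ⁻¹' (S '' E), k (S x) ∂m := by rw [← h1]; rfl
      _ = ∫⁻ x in S '' E, k x ∂m := hS.toMeasurePreserving.setLIntegral_comp_preimage hE' hkm
      _ = ν (S '' E) := by rw [← withDensity_apply k hE', hkd]
      _ = (ν.map S) (S '' E) := by rw [hinv]
      _ = ν (S ⁻¹' (S '' E)) := Measure.map_apply S.measurable hE'
      _ = ν E := by rw [← h1]
      _ = ∫⁻ x in E, k x ∂m := by rw [← withDensity_apply k hE, hkd]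
  obtain ⟨c, hc⟩ := hS.ae_eq_const_of_ae_eq_comp_ae hkm.aestronglyMeasurable hinvk
  refine ⟨c, ?_⟩
  rw [← hkd, withDensity_congr_ae hc]
  exact withDensity_const c

/-! ### Powers of `T` -/

variable {X : Type} [MeasurableSpace X]

theorem iter_zero (T : X ≃ᵐ X) : iter T 0 = 1 := by simp [iter]

theorem iter_one_apply (T : X ≃ᵐ X) (x : X) : iter T 1 x = T x := by simp [iter]

theorem iter_add_apply (T : X ≃ᵐ X) (j k : ℤ) (x : X) :
    iter T (j + k) x = iter T j (iter T k x) := by
  simp [iter, zpow_add]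

theorem iter_neg (T : X ≃ᵐ X) (j : ℤ) : iter T (-j) = (iter T j).symm := by
  simp [iter]; rfl

theorem iter_image_image (T : X ≃ᵐ X) (j k : ℤ) (A : Set X) :
    iter T j '' (iter T k '' A) = iter T (j + k) '' A := by
  rw [image_image]
  apply image_congr
  intro x _
  rw [iter_add_apply]

theorem iter_image_eq_preimage (T : X ≃ᵐ X) (j : ℤ) (A : Set X) :
    iter T j '' A = iter T (-j) ⁻¹' A := by
  rw [iter_neg, Equiv.image_eq_preimage_symm]

theorem measurable_iter (T : X ≃ᵐ X) (k : ℤ) : Measurable (iter T k) := by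
  induction k using Int.induction_on with
  | zero => rw [iter_zero]; exact measurable_id
  | succ n ih =>
    have : (iter T (n + 1) : X → X) = fun x => T (iter T n x) := by
      ext x
      rw [add_comm, iter_add_apply, iter_one_apply]
    rw [this]
    exact T.measurable.comp ih
  | pred n ih =>
    have : (iter T (-n - 1) : X → X) = fun x => T.symm (iter T (-n) x) := by
      ext x
      have h1 : iter T (-n) x = T (iter T (-n - 1) x) := by
        rw [← iter_one_apply T, ← iter_add_apply]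
        congr 1; ring_nf
      rw [h1, MeasurableEquiv.symm_apply_apply]
    rw [this]
    exact T.symm.measurable.comp ih

theorem measurableSet_iter_image (T : X ≃ᵐ X) (k : ℤ) {A : Set X} (hA : MeasurableSet A) :
    MeasurableSet (iter T k '' A) := by
  rw [iter_image_eq_preimage]
  exact measurable_iter T _ hA

theorem measurePreserving_iter {μ : Measure X} {T : X ≃ᵐ X} (hT : MeasurePreserving T μ μ)
    (k : ℤ) : MeasurePreserving (iter T k) μ μ := by
  induction k using Int.induction_on with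
  | zero => rw [iter_zero]; exact MeasurePreserving.id μ
  | succ n ih =>
    have : (iter T (n + 1) : X → X) = fun x => T (iter T n x) := by
      ext x
      rw [add_comm, iter_add_apply, iter_one_apply]
    rw [this]
    exact hT.comp ih
  | pred n ih =>
    have : (iter T (-n - 1) : X → X) = fun x => T.symm (iter T (-n) x) := by
      ext x
      have h1 : iter T (-n) x = T (iter T (-n - 1) x) := by
        rw [← iter_one_apply T, ← iter_add_apply]
        congr 1; ring_nf
      rw [h1, MeasurableEquiv.symm_apply_apply]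
    rw [this]
    exact (MeasurePreserving.symm T hT).comp ih

theorem measure_iter_image {μ : Measure X} {T : X ≃ᵐ X} (hT : MeasurePreserving T μ μ)
    (k : ℤ) {A : Set X} (hA : MeasurableSet A) : μ (iter T k '' A) = μ A := by
  rw [iter_image_eq_preimage]
  exact (measurePreserving_iter hT (-k)).measure_preimage hA.nullMeasurableSet

/-! ### Divergence of `a_n` -/

theorem aSeq_nonneg (μ : Measure X) (T : X ≃ᵐ X) (F : Set X) (n : ℕ) : 0 ≤ aSeq μ T F n := by
  unfold aSeq uSeq
  positivity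

theorem iter_natCast_apply (T : X ≃ᵐ X) (n : ℕ) (x : X) : iter T n x = T^[n] x := by
  induction n generalizing x with
  | zero => simp [iter_zero]
  | succ n ih =>
    rw [Function.iterate_succ_apply', ← ih, ← iter_one_apply T (iter T n x), ← iter_add_apply]
    congr 2
    push_cast; ring

theorem tendsto_aSeq {μ : Measure X} {T : X ≃ᵐ X} (hT : MeasurePreserving T μ μ)
    (hc : Conservative T μ) {F : Set X} (hF : MeasurableSet F) (hF0 : 0 < μ F) (hF1 : μ F < ⊤) :
    Tendsto (aSeq μ T F) atTop atTop := by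
  have hFr : 0 < μ.real F := ENNReal.toReal_pos hF0.ne' hF1.ne
  have hnn : ∀ i, 0 ≤ uSeq μ T F i := by intro i; unfold uSeq; positivity
  rw [show aSeq μ T F = fun n => ∑ i ∈ Finset.range n, uSeq μ T F i from rfl]
  rw [← not_summable_iff_tendsto_nat_atTop_of_nonneg hnn]
  intro hs
  have hs2 : Summable (fun i : ℕ => μ.real (iter T i '' F ∩ F)) := by
    have := hs.mul_right (μ.real F ^ 2)
    refine this.congr (fun i => ?_)
    unfold uSeq
    field_simp
  have hfin : ∀ i : ℕ, μ (iter T i '' F ∩ F) ≠ ⊤ := fun i =>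
    ne_top_of_le_ne_top hF1.ne (measure_mono inter_subset_right)
  have hs3 : ∑' i : ℕ, μ (iter T i '' F ∩ F) ≠ ⊤ := by
    have h1 : ∀ i : ℕ, μ (iter T i '' F ∩ F) = ENNReal.ofReal (μ.real (iter T i '' F ∩ F)) :=
      fun i => (ENNReal.ofReal_toReal (hfin i)).symm
    simp_rw [h1]
    rw [← ENNReal.ofReal_tsum_of_nonneg (fun i => measureReal_nonneg) hs2]
    exact ENNReal.ofReal_ne_top
  have h2 : ∀ i : ℕ, μ {x | x ∈ F ∧ T^[i] x ∈ F} = μ (iter T i '' F ∩ F) := by
    intro i
    have h3 : iter T i '' {x | x ∈ F ∧ T^[i] x ∈ F} = iter T i '' F ∩ F := by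
      ext y
      constructor
      · rintro ⟨x, ⟨hx1, hx2⟩, rfl⟩
        refine ⟨⟨x, hx1, rfl⟩, ?_⟩
        rw [iter_natCast_apply]; exact hx2
      · rintro ⟨⟨x, hx1, rfl⟩, hy⟩
        refine ⟨x, ⟨hx1, ?_⟩, rfl⟩
        rw [← iter_natCast_apply]; exact hy
    rw [← h3]
    refine (measure_iter_image hT i ?_).symm
    exact hF.inter ((T.measurable.iterate i) hF)
  have h4 : μ {x | ∃ᶠ n in atTop, x ∈ F ∧ T^[n] x ∈ F} = 0 := by
    apply measure_setOfPred_frequently_eq_zero
    simp_rw [h2]
    exact hs3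
  have h5 := hc.ae_mem_imp_frequently_image_mem hF.nullMeasurableSet
  have h6 : μ F = 0 := by
    rw [ae_iff] at h5
    apply measure_mono_null _ (measure_union_null h4 h5)
    intro x hx
    by_cases h : ∃ᶠ n in atTop, T^[n] x ∈ F
    · left
      exact h.mono fun n hn => ⟨hx, hn⟩
    · right
      simp only [mem_ofPred_eq, Classical.not_imp]
      exact ⟨hx, h⟩
  exact hF0.ne' h6

/-! ### Extending the convergence to small sets -/

/-- The convergence in the definition of weak rational ergodicity for a given pair. -/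
def Conv (μ : Measure X) (T : X ≃ᵐ X) (F A B : Set X) : Prop :=
  Tendsto (fun n : ℕ => (1 / aSeq μ T F n) *
    ∑ i ∈ Finset.range n, μ.real (iter T i '' A ∩ B)) atTop (𝓝 (μ.real A * μ.real B))

theorem conv_shift {μ : Measure X} {T : X ≃ᵐ X} (hT : MeasurePreserving T μ μ) {F : Set X}
    (ha : Tendsto (aSeq μ T F) atTop atTop) {A B : Set X} (hA : MeasurableSet A)
    (hB1 : μ B < ⊤) :
    Conv μ T F (iter T 1 '' A) B ↔ Conv μ T F A B := by
  have h1 : ∀ i : ℕ, iter T i '' (iter T 1 '' A) ∩ B = iter T ((i + 1 : ℕ) : ℤ) '' A ∩ B := by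
    intro i
    rw [iter_image_image]; push_cast; rfl
  have h2 : ∀ n : ℕ, ∑ i ∈ Finset.range n, μ.real (iter T i '' (iter T 1 '' A) ∩ B) =
      ∑ i ∈ Finset.range n, μ.real (iter T i '' A ∩ B) +
        (μ.real (iter T n '' A ∩ B) - μ.real (iter T (0 : ℕ) '' A ∩ B)) := by
    intro n
    simp_rw [h1]
    have h3 := Finset.sum_range_succ (fun i : ℕ => μ.real (iter T i '' A ∩ B)) n
    have h4 := Finset.sum_range_succ' (fun i : ℕ => μ.real (iter T i '' A ∩ B)) n
    linarith
  have h5 : Tendsto (fun n : ℕ => (1 / aSeq μ T F n) *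
      (μ.real (iter T n '' A ∩ B) - μ.real (iter T (0 : ℕ) '' A ∩ B))) atTop (𝓝 0) := by
    have h6 : Tendsto (fun n : ℕ => (1 / aSeq μ T F n) * μ.real B) atTop (𝓝 0) := by
      have := (tendsto_inv_atTop_zero.comp ha).mul_const (μ.real B)
      simpa using this
    apply squeeze_zero_norm _ h6
    intro n
    rw [norm_mul, Real.norm_eq_abs, Real.norm_eq_abs,
      abs_of_nonneg (one_div_nonneg.mpr (aSeq_nonneg μ T F n))]
    apply mul_le_mul_of_nonneg_left _ (one_div_nonneg.mpr (aSeq_nonneg μ T F n))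
    have b1 : ∀ j : ℤ, μ.real (iter T j '' A ∩ B) ≤ μ.real B := fun j =>
      measureReal_mono inter_subset_right hB1.ne
    have b2 : ∀ j : ℤ, 0 ≤ μ.real (iter T j '' A ∩ B) := fun j => measureReal_nonneg
    rw [abs_le]
    constructor
    · have := b1 (0 : ℕ); have := b2 n; linarith
    · have := b1 n; have := b2 (0 : ℕ); linarith
  have h7 : μ.real (iter T 1 '' A) = μ.real A := by
    unfold Measure.real; rw [measure_iter_image hT 1 hA]
  unfold Conv
  rw [h7]
  simp_rw [h2, mul_add]
  constructor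
  · intro h
    have := h.sub h5
    simpa using this
  · intro h
    have := h.add h5
    simpa using this

theorem conv_shift_int {μ : Measure X} {T : X ≃ᵐ X} (hT : MeasurePreserving T μ μ) {F : Set X}
    (ha : Tendsto (aSeq μ T F) atTop atTop) {A B : Set X} (hA : MeasurableSet A)
    (hB1 : μ B < ⊤) (j : ℤ) :
    Conv μ T F (iter T j '' A) B ↔ Conv μ T F A B := by
  induction j using Int.induction_on with
  | zero => rw [iter_zero]; simp
  | succ n ih =>
    rw [← ih, ← conv_shift hT ha (measurableSet_iter_image T n hA) hB1, iter_image_image, add_comm]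
  | pred n ih =>
    rw [← ih, ← conv_shift hT ha (measurableSet_iter_image T (-n - 1) hA) hB1, iter_image_image]
    have : (1 : ℤ) + (-n - 1) = -n := by ring
    rw [this]

/-- Sets contained, up to a null set, in one translate of `F`. -/
def Small (μ : Measure X) (T : X ≃ᵐ X) (F A : Set X) : Prop :=
  MeasurableSet A ∧ ∃ j : ℤ, μ (A \ iter T j '' F) = 0

theorem Small.measure_lt_top {μ : Measure X} {T : X ≃ᵐ X} (hT : MeasurePreserving T μ μ)
    {F A : Set X} (hF : MeasurableSet F) (hF1 : μ F < ⊤) (hA : Small μ T F A) : μ A < ⊤ := by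
  obtain ⟨_, j, hj⟩ := hA
  calc μ A ≤ μ (A \ iter T j '' F) + μ (iter T j '' F) := by
        refine (measure_mono ?_).trans (measure_union_le _ _)
        intro x hx
        by_cases h : x ∈ iter T j '' F
        · exact Or.inr h
        · exact Or.inl ⟨hx, h⟩
    _ = μ F := by rw [hj, zero_add, measure_iter_image hT j hF]
    _ < ⊤ := hF1

theorem iter_image_inter_eq {μ : Measure X} {T : X ≃ᵐ X} (hT : MeasurePreserving T μ μ)
    {A B : Set X} (hA : MeasurableSet A) (hB : MeasurableSet B) (i k : ℤ) :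
    μ.real (iter T i '' (iter T k '' A) ∩ iter T k '' B) = μ.real (iter T i '' A ∩ B) := by
  have h1 : iter T i '' (iter T k '' A) = iter T k '' (iter T i '' A) := by
    rw [iter_image_image, iter_image_image, add_comm]
  rw [h1, ← image_inter (iter T k).injective]
  unfold Measure.real
  rw [measure_iter_image hT]
  exact (measurableSet_iter_image T i hA).inter hB

theorem conv_small {μ : Measure X} {T : X ≃ᵐ X} (hT : MeasurePreserving T μ μ) {F : Set X}
    (hF : MeasurableSet F) (hF1 : μ F < ⊤)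
    (ha : Tendsto (aSeq μ T F) atTop atTop)
    (hW : ∀ A B : Set X, MeasurableSet A → MeasurableSet B → A ⊆ F → B ⊆ F → Conv μ T F A B)
    {A B : Set X} (hA : Small μ T F A) (hB : Small μ T F B) : Conv μ T F A B := by
  obtain ⟨hAm, j, hj⟩ := hA
  obtain ⟨hBm, k, hk⟩ := hB
  have hFj := measurableSet_iter_image T j hF
  have hFk := measurableSet_iter_image T k hF
  -- replace `A`, `B` by honest subsets of translates
  have hAe : (A ∩ iter T j '' F : Set X) =ᵐ[μ] A := by
    rw [ae_eq_set]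
    constructor
    · rw [show (A ∩ iter T j '' F) \ A = ∅ by ext x; simp; tauto]; exact measure_empty
    · rw [show A \ (A ∩ iter T j '' F) = A \ iter T j '' F by ext x; simp]; exact hj
  have hBe : (B ∩ iter T k '' F : Set X) =ᵐ[μ] B := by
    rw [ae_eq_set]
    constructor
    · rw [show (B ∩ iter T k '' F) \ B = ∅ by ext x; simp; tauto]; exact measure_empty
    · rw [show B \ (B ∩ iter T k '' F) = B \ iter T k '' F by ext x; simp]; exact hk
  set A0 := A ∩ iter T j '' F with hA0
  set B0 := B ∩ iter T k '' F with hB0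
  have hA0m : MeasurableSet A0 := hAm.inter hFj
  have hB0m : MeasurableSet B0 := hBm.inter hFk
  have key : Conv μ T F A0 B0 := by
    have hA' : iter T (-j) '' A0 ⊆ F := by
      rintro _ ⟨x, ⟨_, ⟨y, hy, rfl⟩⟩, rfl⟩
      rw [← iter_add_apply, neg_add_cancel, iter_zero]
      exact hy
    have hB' : iter T (-k) '' B0 ⊆ F := by
      rintro _ ⟨x, ⟨_, ⟨y, hy, rfl⟩⟩, rfl⟩
      rw [← iter_add_apply, neg_add_cancel, iter_zero]
      exact hy
    have hA'm := measurableSet_iter_image T (-j) hA0m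
    have hB'm := measurableSet_iter_image T (-k) hB0m
    have c1 := hW _ _ hA'm hB'm hA' hB'
    have hB'fin : μ (iter T (-k) '' B0) < ⊤ := (measure_mono hB').trans_lt hF1
    have c2 := (conv_shift_int hT ha hA'm hB'fin (j - k)).mpr c1
    rw [iter_image_image] at c2
    have hjk : j - k + -j = -k := by ring
    rw [hjk] at c2
    -- now translate both by `k`
    unfold Conv at c2 ⊢
    have e1 : ∀ i : ℕ, μ.real (iter T i '' (iter T (-k) '' A0) ∩ iter T (-k) '' B0) =
        μ.real (iter T i '' A0 ∩ B0) := fun i => iter_image_inter_eq hT hA0m hB0m i (-k)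
    have e2 : μ.real (iter T (-k) '' A0) = μ.real A0 := by
      unfold Measure.real; rw [measure_iter_image hT _ hA0m]
    have e3 : μ.real (iter T (-k) '' B0) = μ.real B0 := by
      unfold Measure.real; rw [measure_iter_image hT _ hB0m]
    simp_rw [e1, e2, e3] at c2
    exact c2
  unfold Conv at key ⊢
  have e1 : ∀ i : ℕ, μ.real (iter T i '' A0 ∩ B0) = μ.real (iter T i '' A ∩ B) := by
    intro i
    unfold Measure.real
    congr 1
    apply measure_congr
    apply Filter.EventuallyEq.inter _ hBe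
    rw [iter_image_eq_preimage, iter_image_eq_preimage]
    exact (measurePreserving_iter hT _).quasiMeasurePreserving.preimage_ae_eq hAe
  have e2 : μ.real A0 = μ.real A := by unfold Measure.real; rw [measure_congr hAe]
  have e3 : μ.real B0 = μ.real B := by unfold Measure.real; rw [measure_congr hBe]
  simp_rw [e1, e2, e3] at key
  exact key


/-! ### The semiring of small rectangles -/

theorem Small.mono {μ : Measure X} {T : X ≃ᵐ X} {F A A' : Set X} (hA : Small μ T F A)
    (hA' : MeasurableSet A') (h : A' ⊆ A) : Small μ T F A' := by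
  obtain ⟨_, j, hj⟩ := hA
  exact ⟨hA', j, measure_mono_null (sdiff_subset_sdiff_left h) hj⟩

/-- The semiring of rectangles with small sides. -/
def Rect (μ : Measure X) (T : X ≃ᵐ X) (F : Set X) : Set (Set (X × X)) :=
  {R | ∃ A B : Set X, Small μ T F A ∧ Small μ T F B ∧ R = A ×ˢ B}

theorem small_empty (μ : Measure X) (T : X ≃ᵐ X) (F : Set X) : Small μ T F ∅ :=
  ⟨MeasurableSet.empty, 0, by simp⟩

theorem isSetSemiring_rect (μ : Measure X) (T : X ≃ᵐ X) (F : Set X) :
    IsSetSemiring (Rect μ T F) where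
  empty_mem := ⟨∅, ∅, small_empty μ T F, small_empty μ T F, by simp⟩
  inter_mem := by
    rintro _ ⟨A, B, hA, hB, rfl⟩ _ ⟨A', B', hA', hB', rfl⟩
    refine ⟨A ∩ A', B ∩ B', hA.mono (hA.1.inter hA'.1) inter_subset_left,
      hB.mono (hB.1.inter hB'.1) inter_subset_left, ?_⟩
    rw [prod_inter_prod]
  sdiff_eq_sUnion' := by
    classical
    rintro _ ⟨A, B, hA, hB, rfl⟩ _ ⟨A', B', hA', hB', rfl⟩
    refine ⟨{(A \ A') ×ˢ B, (A ∩ A') ×ˢ (B \ B')}, ?_, ?_, ?_⟩
    · intro R hR
      simp only [Finset.coe_insert, Finset.coe_singleton, mem_insert_iff,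
        mem_singleton_iff] at hR
      rcases hR with rfl | rfl
      · exact ⟨A \ A', B, hA.mono (hA.1.diff hA'.1) sdiff_subset, hB, rfl⟩
      · exact ⟨A ∩ A', B \ B', hA.mono (hA.1.inter hA'.1) inter_subset_left,
          hB.mono (hB.1.diff hB'.1) sdiff_subset, rfl⟩
    · have hd : Disjoint ((A \ A') ×ˢ B) ((A ∩ A') ×ˢ (B \ B')) := by
        rw [Set.disjoint_left]
        rintro ⟨x, y⟩ h1 h2
        exact h1.1.2 h2.1.2
      intro R hR R' hR' hne
      simp only [Finset.coe_insert, Finset.coe_singleton, mem_insert_iff,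
        mem_singleton_iff] at hR hR'
      rcases hR with rfl | rfl <;> rcases hR' with rfl | rfl
      · exact absurd rfl hne
      · exact hd
      · exact hd.symm
      · exact absurd rfl hne
    · ext ⟨x, y⟩
      simp only [Set.mem_sdiff, mem_prod, Finset.coe_insert, Finset.coe_singleton, sUnion_insert,
        sUnion_singleton, mem_union, mem_inter_iff]
      tauto

/-- A countable cover by small sets. -/
theorem exists_cover {μ : Measure X} {T : X ≃ᵐ X} (hT : Ergodic T μ) {F : Set X}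
    (hF : MeasurableSet F) (hF0 : 0 < μ F) :
    ∃ D : ℤ → Set X, (∀ j, Small μ T F (D j)) ∧ ⋃ j, D j = univ := by
  set Y : Set X := ⋃ j : ℤ, iter T j '' F with hY
  have hYm : MeasurableSet Y := MeasurableSet.iUnion fun j => measurableSet_iter_image T j hF
  have hinv : T ⁻¹' Y = Y := by
    ext x
    simp only [hY, mem_preimage, mem_iUnion]
    constructor
    · rintro ⟨j, y, hy, hxy⟩
      refine ⟨-1 + j, y, hy, ?_⟩
      rw [iter_add_apply, hxy, ← iter_one_apply T, ← iter_add_apply, neg_add_cancel, iter_zero]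
      rfl
    · rintro ⟨j, y, hy, rfl⟩
      refine ⟨1 + j, y, hy, ?_⟩
      rw [iter_add_apply, iter_one_apply]
  have hYc : μ Yᶜ = 0 := by
    rcases hT.toPreErgodic.measure_self_or_compl_eq_zero hYm hinv with h | h
    · exfalso
      have h1 : F ⊆ Y := by
        intro x hx
        rw [hY, mem_iUnion]
        exact ⟨0, x, hx, by rw [iter_zero]; rfl⟩
      exact hF0.ne' (measure_mono_null h1 h)
    · exact h
  refine ⟨fun j => iter T j '' F ∪ Yᶜ, fun j => ⟨(measurableSet_iter_image T j hF).union hYm.compl,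
    j, ?_⟩, ?_⟩
  · apply measure_mono_null _ hYc
    rintro x ⟨hx1 | hx1, hx2⟩
    · exact absurd hx1 hx2
    · exact hx1
  · rw [← iUnion_union, ← hY, union_compl_self]

theorem generateFrom_rect {μ : Measure X} {T : X ≃ᵐ X} (hT : Ergodic T μ) {F : Set X}
    (hF : MeasurableSet F) (hF0 : 0 < μ F) :
    (inferInstance : MeasurableSpace (X × X)) = MeasurableSpace.generateFrom (Rect μ T F) := by
  apply le_antisymm
  · rw [← generateFrom_prod]
    apply MeasurableSpace.generateFrom_le
    rintro _ ⟨A, hA, B, hB, rfl⟩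
    obtain ⟨D, hD, hDu⟩ := exists_cover hT hF hF0
    have h1 : A ×ˢ B = ⋃ j : ℤ, ⋃ k : ℤ, (A ∩ D j) ×ˢ (B ∩ D k) := by
      ext ⟨x, y⟩
      simp only [mem_prod, mem_iUnion, mem_inter_iff]
      constructor
      · rintro ⟨hx, hy⟩
        have hx' : x ∈ ⋃ j, D j := by rw [hDu]; trivial
        have hy' : y ∈ ⋃ j, D j := by rw [hDu]; trivial
        rw [mem_iUnion] at hx' hy'
        obtain ⟨j, hj⟩ := hx'
        obtain ⟨k, hk⟩ := hy'
        exact ⟨j, k, ⟨hx, hj⟩, hy, hk⟩
      · rintro ⟨j, k, ⟨hx, _⟩, hy, _⟩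
        exact ⟨hx, hy⟩
    beta_reduce
    rw [h1]
    apply MeasurableSet.iUnion
    intro j
    apply MeasurableSet.iUnion
    intro k
    apply MeasurableSpace.measurableSet_generateFrom
    exact ⟨A ∩ D j, B ∩ D k, (hD j).mono (hA.inter (hD j).1) inter_subset_right,
      (hD k).mono (hB.inter (hD k).1) inter_subset_right, rfl⟩
  · apply MeasurableSpace.generateFrom_le
    rintro _ ⟨A, B, hA, hB, rfl⟩
    exact hA.1.prod hB.1

/-- Two measures on `X × X` that agree on small rectangles (where they are finite) are equal. -/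
theorem ext_of_rect {μ : Measure X} {T : X ≃ᵐ X} (hT : Ergodic T μ) {F : Set X}
    (hF : MeasurableSet F) (hF0 : 0 < μ F) {ν₁ ν₂ : Measure (X × X)}
    (hfin : ∀ R ∈ Rect μ T F, ν₁ R ≠ ⊤) (h : ∀ R ∈ Rect μ T F, ν₁ R = ν₂ R) : ν₁ = ν₂ := by
  obtain ⟨D, hD, hDu⟩ := exists_cover hT hF hF0
  let e : ℕ ≃ ℤ × ℤ := (Denumerable.eqv (ℤ × ℤ)).symm
  apply Measure.ext_of_generateFrom_of_iUnion (Rect μ T F) (fun n => D (e n).1 ×ˢ D (e n).2)
    (generateFrom_rect hT hF hF0) (isSetSemiring_rect μ T F).isPiSystem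
  · ext ⟨x, y⟩
    simp only [mem_iUnion, mem_prod, mem_univ, iff_true]
    have hx' : x ∈ ⋃ j, D j := by rw [hDu]; trivial
    have hy' : y ∈ ⋃ j, D j := by rw [hDu]; trivial
    rw [mem_iUnion] at hx' hy'
    obtain ⟨j, hj⟩ := hx'
    obtain ⟨k, hk⟩ := hy'
    exact ⟨e.symm (j, k), by simp [hj, hk]⟩
  · exact fun n => ⟨_, _, hD _, hD _, rfl⟩
  · exact fun n => hfin _ ⟨_, _, hD _, hD _, rfl⟩
  · exact h

/-! ### The measures `N` -/

/-- The graph map `y ↦ (T^{-i} y, y)`. -/
def graphMap (T : X ≃ᵐ X) (i : ℕ) (y : X) : X × X := (iter T (-(i : ℤ)) y, y)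

theorem measurable_graphMap (T : X ≃ᵐ X) (i : ℕ) : Measurable (graphMap T i) :=
  (measurable_iter T _).prodMk measurable_id

/-- The normalised weighted sums of the graph measures. -/
noncomputable def Nm (μ : Measure X) (T : X ≃ᵐ X) (F : Set X) (ε : ℕ → ℝ≥0∞) (n : ℕ) :
    Measure (X × X) :=
  (ENNReal.ofReal (aSeq μ T F n))⁻¹ • ∑ i ∈ Finset.range n, ε i • μ.map (graphMap T i)

theorem map_graphMap_prod {μ : Measure X} (T : X ≃ᵐ X) (i : ℕ) {A B : Set X}
    (hA : MeasurableSet A) (hB : MeasurableSet B) :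
    μ.map (graphMap T i) (A ×ˢ B) = μ (iter T i '' A ∩ B) := by
  rw [Measure.map_apply (measurable_graphMap T i) (hA.prod hB), iter_image_eq_preimage]
  rfl

theorem Nm_prod {μ : Measure X} (T : X ≃ᵐ X) (F : Set X) (ε : ℕ → ℝ≥0∞) (n : ℕ) {A B : Set X}
    (hA : MeasurableSet A) (hB : MeasurableSet B) :
    Nm μ T F ε n (A ×ˢ B) = (ENNReal.ofReal (aSeq μ T F n))⁻¹ *
      ∑ i ∈ Finset.range n, ε i * μ (iter T i '' A ∩ B) := by
  unfold Nm
  rw [Measure.smul_apply, smul_eq_mul, Measure.finsetSum_apply]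
  congr 1
  apply Finset.sum_congr rfl
  intro i _
  rw [Measure.smul_apply, smul_eq_mul, map_graphMap_prod T i hA hB]


/-! ### The main argument -/

theorem tendsto_Nm_one {μ : Measure X} [SigmaFinite μ] {T : X ≃ᵐ X} (hT : MeasurePreserving T μ μ)
    {F : Set X} (hF : MeasurableSet F) (hF1 : μ F < ⊤)
    (ha : Tendsto (aSeq μ T F) atTop atTop)
    (hW : ∀ A B : Set X, MeasurableSet A → MeasurableSet B → A ⊆ F → B ⊆ F → Conv μ T F A B)
    {R : Set (X × X)} (hR : R ∈ Rect μ T F) :
    Tendsto (fun n => Nm μ T F (fun _ => 1) n R) atTop (𝓝 (μ.prod μ R)) := by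
  obtain ⟨A, B, hA, hB, rfl⟩ := hR
  have hAf := hA.measure_lt_top hT hF hF1
  have hBf := hB.measure_lt_top hT hF hF1
  have h1 := conv_small hT hF hF1 ha hW hA hB
  have h2 : Tendsto (fun n : ℕ => ENNReal.ofReal ((1 / aSeq μ T F n) *
      ∑ i ∈ Finset.range n, μ.real (iter T i '' A ∩ B))) atTop
      (𝓝 (ENNReal.ofReal (μ.real A * μ.real B))) := ENNReal.tendsto_ofReal h1
  have h3 : ENNReal.ofReal (μ.real A * μ.real B) = μ.prod μ (A ×ˢ B) := by
    rw [Measure.prod_prod, ENNReal.ofReal_mul measureReal_nonneg, Measure.real, Measure.real,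
      ENNReal.ofReal_toReal hAf.ne, ENNReal.ofReal_toReal hBf.ne]
  rw [← h3]
  refine h2.congr' ?_
  filter_upwards [ha.eventually_gt_atTop 0] with n hn
  rw [Nm_prod T F _ n hA.1 hB.1, one_div, ENNReal.ofReal_mul (inv_nonneg.mpr hn.le),
    ENNReal.ofReal_inv_of_pos hn, ENNReal.ofReal_sum_of_nonneg (fun i _ => measureReal_nonneg)]
  congr 1
  apply Finset.sum_congr rfl
  intro i _
  rw [one_mul, Measure.real, ENNReal.ofReal_toReal]
  exact ne_top_of_le_ne_top hBf.ne (measure_mono inter_subset_right)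

theorem Nm_add {μ : Measure X} (T : X ≃ᵐ X) (F : Set X) {ε ε' : ℕ → ℝ≥0∞}
    (h : ∀ i, ε i + ε' i = 1) (n : ℕ) {A B : Set X}
    (hA : MeasurableSet A) (hB : MeasurableSet B) :
    Nm μ T F ε n (A ×ˢ B) + Nm μ T F ε' n (A ×ˢ B) = Nm μ T F (fun _ => 1) n (A ×ˢ B) := by
  rw [Nm_prod T F _ n hA hB, Nm_prod T F _ n hA hB, Nm_prod T F _ n hA hB, ← mul_add,
    ← Finset.sum_add_distrib]
  congr 1
  apply Finset.sum_congr rfl
  intro i _
  rw [← add_mul, h]

theorem exists_const {μ : Measure X} [SigmaFinite μ] {T : X ≃ᵐ X} (hT : Ergodic T μ)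
    (hTT : Ergodic (Prod.map T T) (μ.prod μ))
    {F : Set X} (hF : MeasurableSet F) (hF0 : 0 < μ F) (hF1 : μ F < ⊤)
    (ha : Tendsto (aSeq μ T F) atTop atTop)
    (hW : ∀ A B : Set X, MeasurableSet A → MeasurableSet B → A ⊆ F → B ⊆ F → Conv μ T F A B)
    (U : Ultrafilter ℕ) (hU : (U : Filter ℕ) ≤ atTop) {ε ε' : ℕ → ℝ≥0∞}
    (h : ∀ i, ε i + ε' i = 1) :
    ∃ c : ℝ≥0∞, ∀ R ∈ Rect μ T F, Tendsto (fun n => Nm μ T F ε n R) U (𝓝 (c * μ.prod μ R)) := by
  have hTm := hT.toMeasurePreserving
  have hC := isSetSemiring_rect μ T F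
  have hgen := generateFrom_rect hT hF hF0
  have hfin : ∀ R ∈ Rect μ T F, μ.prod μ R ≠ ⊤ := by
    rintro _ ⟨A, B, hA, hB, rfl⟩
    rw [Measure.prod_prod]
    exact ENNReal.mul_ne_top (hA.measure_lt_top hTm hF hF1).ne (hB.measure_lt_top hTm hF hF1).ne
  have h1 : ∀ R ∈ Rect μ T F, ulim U (fun n => Nm μ T F ε n R) +
      ulim U (fun n => Nm μ T F ε' n R) = μ.prod μ R := by
    intro R hR
    have h2 := (tendsto_ulim U (fun n => Nm μ T F ε n R)).add
      (tendsto_ulim U (fun n => Nm μ T F ε' n R))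
    have h3 := (tendsto_Nm_one hTm hF hF1 ha hW hR).mono_left hU
    refine tendsto_nhds_unique h2 (h3.congr fun n => ?_)
    obtain ⟨A, B, hA, hB, rfl⟩ := hR
    exact (Nm_add T F h n hA.1 hB.1).symm
  obtain ⟨ν, hν⟩ := exists_limit_measure hC hgen (μ.prod μ) hfin (Nm μ T F ε) U
    (fun R hR => by rw [← h1 R hR]; exact le_self_add)
  obtain ⟨ν', hν'⟩ := exists_limit_measure hC hgen (μ.prod μ) hfin (Nm μ T F ε') U
    (fun R hR => by rw [← h1 R hR]; exact le_add_self)
  have hsum : μ.prod μ = ν + ν' := by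
    apply ext_of_rect hT hF hF0 hfin
    intro R hR
    rw [Measure.add_apply, hν R hR, hν' R hR, h1 R hR]
  have hle : ν ≤ μ.prod μ := by
    rw [hsum]
    exact Measure.le_add_right le_rfl
  -- invariance
  let S : X × X ≃ᵐ X × X := MeasurableEquiv.prodCongr T T
  have hS : Ergodic S (μ.prod μ) := hTT
  have hinv : ν.map S = ν := by
    have hpre : ∀ R ∈ Rect μ T F, ν (S ⁻¹' R) = ν R := by
      rintro _ ⟨A, B, hA, hB, rfl⟩
      have hT1 : ∀ {A : Set X}, Small μ T F A → Small μ T F (T ⁻¹' A) := by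
        rintro A ⟨hA, j, hj⟩
        refine ⟨T.measurable hA, -1 + j, ?_⟩
        have : T ⁻¹' A \ iter T (-1 + j) '' F = T ⁻¹' (A \ iter T j '' F) := by
          ext x
          simp only [Set.mem_sdiff, mem_preimage, mem_image]
          constructor
          · rintro ⟨hx, hx2⟩
            refine ⟨hx, fun ⟨y, hy, hxy⟩ => hx2 ⟨y, hy, ?_⟩⟩
            rw [iter_add_apply, hxy, ← iter_one_apply T, ← iter_add_apply, neg_add_cancel,
              iter_zero]
            rfl
          · rintro ⟨hx, hx2⟩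
            refine ⟨hx, fun ⟨y, hy, hxy⟩ => hx2 ⟨y, hy, ?_⟩⟩
            rw [← hxy, ← iter_one_apply T, ← iter_add_apply]
            congr 1
            ring_nf
        rw [this]
        have h0 := hTm.measure_preimage
          ((hA.diff (measurableSet_iter_image T j hF)).nullMeasurableSet)
        rw [h0, hj]
      have hSR : S ⁻¹' (A ×ˢ B) = (T ⁻¹' A) ×ˢ (T ⁻¹' B) := rfl
      have hSmem : (T ⁻¹' A) ×ˢ (T ⁻¹' B) ∈ Rect μ T F := ⟨_, _, hT1 hA, hT1 hB, rfl⟩
      rw [hSR, hν _ hSmem, hν _ ⟨A, B, hA, hB, rfl⟩]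
      congr 1
      ext n
      rw [Nm_prod T F ε n (T.measurable hA.1) (T.measurable hB.1), Nm_prod T F ε n hA.1 hB.1]
      congr 1
      apply Finset.sum_congr rfl
      intro i _
      congr 1
      have h5 : iter T i '' (T ⁻¹' A) ∩ T ⁻¹' B = T ⁻¹' (iter T i '' A ∩ B) := by
        rw [iter_image_eq_preimage, iter_image_eq_preimage]
        ext x
        simp only [mem_inter_iff, mem_preimage]
        rw [← iter_one_apply T x, ← iter_one_apply T (iter T (-(i : ℤ)) x), ← iter_add_apply,
          ← iter_add_apply, add_comm]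
      rw [h5]
      exact hTm.measure_preimage
        ((measurableSet_iter_image T i hA.1).inter hB.1).nullMeasurableSet
    apply ext_of_rect hT hF hF0
    · intro R hR
      have hRm : MeasurableSet R := by
        obtain ⟨A, B, hA, hB, rfl⟩ := hR
        exact hA.1.prod hB.1
      rw [Measure.map_apply S.measurable hRm, hpre R hR]
      exact ne_top_of_le_ne_top (hfin R hR) (hle R)
    · intro R hR
      have hRm : MeasurableSet R := by
        obtain ⟨A, B, hA, hB, rfl⟩ := hR
        exact hA.1.prod hB.1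
      rw [Measure.map_apply S.measurable hRm, hpre R hR]
  obtain ⟨c, hc⟩ := eq_smul_of_invariant (μ.prod μ) S hS ν hle hinv
  refine ⟨c, fun R hR => ?_⟩
  have h6 := tendsto_ulim U (fun n => Nm μ T F ε n R)
  rw [← hν R hR, hc, Measure.smul_apply, smul_eq_mul] at h6
  exact h6

/-- Weak rational ergodicity along `F` and ergodicity of `T × T` imply the convergence in the
definition of rational weak mixing along `F`. -/
theorem tendsto_abs {μ : Measure X} [SigmaFinite μ] {T : X ≃ᵐ X} (hT : Ergodic T μ)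
    (hc : Conservative T μ) (hTT : Ergodic (Prod.map T T) (μ.prod μ))
    {F : Set X} (hF : MeasurableSet F) (hF0 : 0 < μ F) (hF1 : μ F < ⊤)
    (hW : ∀ A B : Set X, MeasurableSet A → MeasurableSet B → A ⊆ F → B ⊆ F → Conv μ T F A B)
    {A B : Set X} (hA : MeasurableSet A) (hB : MeasurableSet B) (hAF : A ⊆ F) (hBF : B ⊆ F) :
    Tendsto (fun n : ℕ => (1 / aSeq μ T F n) *
        ∑ i ∈ Finset.range n,
          |μ.real (iter T i '' A ∩ B) - μ.real A * μ.real B * uSeq μ T F i|) atTop (𝓝 0) := by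
  have hTm := hT.toMeasurePreserving
  have ha := tendsto_aSeq hTm hc hF hF0 hF1
  have hFr : 0 < μ.real F := ENNReal.toReal_pos hF0.ne' hF1.ne
  have hAf : μ A < ⊤ := (measure_mono hAF).trans_lt hF1
  have hBf : μ B < ⊤ := (measure_mono hBF).trans_lt hF1
  rw [tendsto_iff_ultrafilter]
  intro U hU
  classical
  set d : ℕ → ℝ := fun i => μ.real (iter T i '' A ∩ B) - μ.real A * μ.real B * uSeq μ T F i with hd
  let ε : ℕ → ℝ≥0∞ := fun i => if 0 < d i then 1 else 0
  let ε' : ℕ → ℝ≥0∞ := fun i => if 0 < d i then 0 else 1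
  have hεε : ∀ i, ε i + ε' i = 1 := by
    intro i
    by_cases h : 0 < d i <;> simp [ε, ε', h]
  obtain ⟨c, hcR⟩ := exists_const hT hTT hF hF0 hF1 ha hW U hU hεε
  have hsm : ∀ {A : Set X}, MeasurableSet A → A ⊆ F → Small μ T F A := by
    intro A hA hAF
    refine ⟨hA, 0, ?_⟩
    rw [iter_zero]
    have : A \ ((1 : Equiv.Perm X) '' F) = ∅ := by
      rw [sdiff_eq_empty]
      intro x hx
      exact ⟨x, hAF hx, rfl⟩
    rw [this, measure_empty]
  have hFF := hcR _ ⟨F, F, hsm hF subset_rfl, hsm hF subset_rfl, rfl⟩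
  have hAB := hcR _ ⟨A, B, hsm hA hAF, hsm hB hBF, rfl⟩
  -- `c` is finite
  have hε1 : ∀ i, ε i ≤ 1 := fun i => by rw [← hεε i]; exact le_self_add
  have hNle : ∀ n, Nm μ T F ε n (F ×ˢ F) ≤ Nm μ T F (fun _ => 1) n (F ×ˢ F) := by
    intro n
    rw [← Nm_add T F hεε n hF hF]
    exact le_self_add
  have hcle : c * μ.prod μ (F ×ˢ F) ≤ μ.prod μ (F ×ˢ F) := by
    have h1 := (tendsto_Nm_one hTm hF hF1 ha hW
      (R := F ×ˢ F) ⟨F, F, hsm hF subset_rfl, hsm hF subset_rfl, rfl⟩).mono_left hU
    exact le_of_tendsto_of_tendsto' hFF h1 hNle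
  have hctop : c ≠ ⊤ := by
    intro h
    rw [h, Measure.prod_prod, ENNReal.top_mul (mul_ne_zero hF0.ne' hF0.ne')] at hcle
    exact absurd hcle (not_le.mpr (ENNReal.mul_lt_top hF1 hF1))
  -- real versions of the limits
  have hreal : ∀ {A B : Set X}, MeasurableSet A → MeasurableSet B → μ A < ⊤ → μ B < ⊤ →
      Tendsto (fun n => Nm μ T F ε n (A ×ˢ B)) U (𝓝 (c * μ.prod μ (A ×ˢ B))) →
      Tendsto (fun n : ℕ => (1 / aSeq μ T F n) * ∑ i ∈ Finset.range n,
        (if 0 < d i then μ.real (iter T i '' A ∩ B) else 0)) U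
        (𝓝 (c.toReal * (μ.real A * μ.real B))) := by
    intro A B hA hB hAf hBf hlim
    rw [Measure.prod_prod] at hlim
    have h1 := (ENNReal.tendsto_toReal (ENNReal.mul_ne_top hctop
      (ENNReal.mul_ne_top hAf.ne hBf.ne))).comp hlim
    rw [ENNReal.toReal_mul, ENNReal.toReal_mul] at h1
    refine h1.congr' ?_
    filter_upwards [hU (ha.eventually_gt_atTop 0)] with n hn
    simp only [Function.comp_apply]
    rw [Nm_prod T F ε n hA hB, ENNReal.toReal_mul, ENNReal.toReal_inv,
      ENNReal.toReal_ofReal hn.le, one_div, ENNReal.toReal_sum]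
    · congr 1
      apply Finset.sum_congr rfl
      intro i _
      by_cases h : 0 < d i
      · simp [ε, h, Measure.real]
      · simp [ε, h]
    · intro i _
      exact ENNReal.mul_ne_top (ne_top_of_le_ne_top ENNReal.one_ne_top (hε1 i))
        (ne_top_of_le_ne_top hBf.ne (measure_mono inter_subset_right))
  have hFFr := hreal hF hF hF1 hF1 hFF
  have hABr := hreal hA hB hAf hBf hAB
  -- positive parts
  have hpos : Tendsto (fun n : ℕ => (1 / aSeq μ T F n) * ∑ i ∈ Finset.range n,
      max (d i) 0) U (𝓝 0) := by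
    have h1 := hABr.sub (hFFr.const_mul (μ.real A * μ.real B / μ.real F ^ 2))
    have h2 : c.toReal * (μ.real A * μ.real B) -
        μ.real A * μ.real B / μ.real F ^ 2 * (c.toReal * (μ.real F * μ.real F)) = 0 := by
      field_simp
      ring
    rw [h2] at h1
    refine h1.congr fun n => ?_
    rw [← mul_assoc, mul_comm (μ.real A * μ.real B / μ.real F ^ 2), mul_assoc, ← mul_sub,
      Finset.mul_sum, ← Finset.sum_sub_distrib]
    congr 1
    apply Finset.sum_congr rfl
    intro i _
    by_cases h : 0 < d i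
    · simp only [h, if_true]
      rw [max_eq_left h.le, hd]
      simp only [uSeq]
      ring
    · simp only [h, if_false]
      rw [max_eq_right (not_lt.mp h)]
      simp
  -- full sums
  have hall : Tendsto (fun n : ℕ => (1 / aSeq μ T F n) * ∑ i ∈ Finset.range n, d i) U (𝓝 0) := by
    have h1 : Tendsto (fun n : ℕ => (1 / aSeq μ T F n) *
      ∑ i ∈ Finset.range n, μ.real (iter T i '' A ∩ B) - μ.real A * μ.real B) U (𝓝 0) := by
      have := ((hW A B hA hB hAF hBF).mono_left hU).sub_const (μ.real A * μ.real B)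
      simpa using this
    refine h1.congr' ?_
    filter_upwards [hU (ha.eventually_gt_atTop 0)] with n hn
    rw [hd, Finset.sum_sub_distrib, ← Finset.mul_sum, mul_sub]
    congr 1
    change _ = 1 / aSeq μ T F n * (μ.real A * μ.real B * aSeq μ T F n)
    field_simp
  have hfinal := (hpos.const_mul 2).sub hall
  simp only [mul_zero, sub_zero] at hfinal
  refine hfinal.congr fun n => ?_
  rw [← mul_assoc, mul_comm (2 : ℝ), mul_assoc, ← mul_sub, Finset.mul_sum,
    ← Finset.sum_sub_distrib]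
  congr 1
  apply Finset.sum_congr rfl
  intro i _
  rcases le_total 0 (d i) with h | h
  · rw [max_eq_left h, abs_of_nonneg h]; ring
  · rw [max_eq_right h, abs_of_nonpos h]; ring

/-- Power weak mixing implies ergodicity of the cartesian square. -/
theorem ergodic_square {μ : Measure X} [SigmaFinite μ] {T : X ≃ᵐ X}
    (h : PowerWeaklyMixing μ T) : Ergodic (Prod.map T T) (μ.prod μ) := by
  have h1 := h 2 (by norm_num) (fun _ => 1) (fun _ => one_ne_zero)
  have h2 := (measurePreserving_finTwoArrow μ).ergodic_conjugate_iff.mpr h1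
  convert h2 using 1
  ext ⟨x, y⟩ <;> simp [iter_one_apply, MeasurableEquiv.finTwoArrow]


end Pool.Agent.Lib.MP_0c3574_an
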